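import Mathlib
import Pool.Agent.Helper9.NS
import Pool.Agent.Helper40.CX.H15GT.Defs
import Pool.Agent.Helper40.CX.H21TO.Trans
import Pool.Agent.Helper40.CX.Good2

namespace CX

/-!
# Block GT-FAM: families of cycles

* `Fam.const`: write `a` as a finite sum of points (enumerate `a.support` by `Fin r`) with constant morphisms.
* `Fam.lin`: a finite linear combination: for `b = ∑_x b_x [x]` enumerate the pairs.
* `Fam.pull`: `S.eval hK (P l) (res w)`; only needed if `pull` is available, not stated.
* `kills_fam`: expand `TM S Φ (fun i => z i w)` by multilinearity (`MultilinearMap.map_sum` for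
  `z i w = ∑_l (e i l) • single (S.eval hK (P i l) w) 1`; `MultilinearMap.map_smul_univ`, `ext'_single`; the numbers `r i` depend on `i`,
  the version `MultilinearMap.map_sum` allows this): it is `∑_f (∏_i e i (f i)) Φ (fun i => S.eval hK (P i (f i)) w)`, the sum over
  `f : ∀ i, Fin (r i)`. For each `f` use `hΦ.gen hK (fun i => P i (f i)) hf`. Compare `kills_trans` in Helper21/TO/Trans.lean.
-/

set_option linter.unusedSectionVars false

namespace Pool.Agent.Helper15.GT

open VC VF Function Pool.Agent.Helper21.TO

universe u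

variable {k : Type u} [Field k] [IsAlgClosed k] [Good k]

theorem Fam.const {S : Variety k} (hS : HasConst S) {K : Type u} [Field K] [Algebra k K]
    (hK : IsFunctionField k K) (a : S.Cycles) : Fam S hK (fun _ => a) := by
  classical
  have e := a.support.equivFin
  have hc : ∀ l : Fin a.support.card, ∃ c : S.Mor K, ∀ v, S.eval hK c v = (e.symm l : S.Pt) :=
    fun l => hS K hK _
  choose P hP using hc
  refine ⟨a.support.card, P, fun l => a (e.symm l : S.Pt), fun w => ?_⟩
  have h1 : ∀ l, Finsupp.single (S.eval hK (P l) w) (a (e.symm l : S.Pt)) =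
      Finsupp.single (e.symm l : S.Pt) (a (e.symm l : S.Pt)) := fun l => by rw [hP l w]
  simp only [h1]
  rw [Equiv.sum_comp e.symm (fun x : a.support => Finsupp.single (x : S.Pt) (a (x : S.Pt)))]
  rw [Finset.sum_coe_sort a.support (fun x => Finsupp.single x (a x))]
  exact (Finsupp.sum_single a).symm

theorem kills_fam {S : Variety k} {n : ℕ} {Φ : (S.pow n).Pt → ℂ} (hΦ : Kills (S.pow n) Φ) {K : Type u}
    [Field K] [Algebra k K] (hK : IsFunctionField k K) (z : Fin n → Place k K → S.Cycles)
    (hz : ∀ i, Fam S hK (z i)) {f : K} (hf : f ≠ 0) :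
    ∑ w ∈ (finite_support_ord hK hf).toFinset, (ord w.ring f : ℂ) * TM S Φ (fun i => z i w) = 0 := by
  classical
  choose r P e hz using hz
  have key : ∀ w : Place k K, TM S Φ (fun i => z i w) =
      ∑ g : (∀ i, Fin (r i)), ((∏ i, e i (g i) : ℤ) : ℂ) *
        Φ ((S.pow n).eval hK (fun i => P i (g i)) w) := by
    intro w
    have h1 : (fun i => z i w) = fun i => ∑ l, e i l • Finsupp.single (S.eval hK (P i l) w) (1 : ℤ) := by
      funext i
      rw [hz i w]
      refine Finset.sum_congr rfl fun l _ => ?_
      rw [Finsupp.smul_single, smul_eq_mul, mul_one]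
    rw [h1, MultilinearMap.map_sum]
    refine Finset.sum_congr rfl fun g _ => ?_
    rw [MultilinearMap.map_smul_univ, TM_apply]
    have h2 : extProd (X := S) (fun i => Finsupp.single (S.eval hK (P i (g i)) w) (1 : ℤ)) =
        Finsupp.single (fun i => S.eval hK (P i (g i)) w) 1 :=
      ext'_single _
    rw [h2, Finsupp.linearCombination_single, one_smul, zsmul_eq_mul]
  simp only [key, Finset.mul_sum]
  rw [Finset.sum_comm]
  refine Finset.sum_eq_zero fun g _ => ?_
  have h3 := hΦ.gen hK (fun i => P i (g i)) hf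
  have h4 : ∀ w ∈ (finite_support_ord hK hf).toFinset, (ord w.ring f : ℂ) *
      (((∏ i, e i (g i) : ℤ) : ℂ) * Φ ((S.pow n).eval hK (fun i => P i (g i)) w)) =
      ((∏ i, e i (g i) : ℤ) : ℂ) * ((ord w.ring f : ℂ) *
        Φ ((S.pow n).eval hK (fun i => P i (g i)) w)) := fun w _ => by ring
  rw [Finset.sum_congr rfl h4, ← Finset.mul_sum, h3, mul_zero]

end Pool.Agent.Helper15.GT

end CX
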