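import Mathlib
import Pool.Agent.Helper9.NS
import Pool.Agent.Helper40.CX.H15GT.Defs
import Pool.Agent.Helper40.CX.Good2

namespace CX

/-!
# GT: automorphisms do not change the vanishing forms
-/

set_option linter.unusedSectionVars false

namespace Pool.Agent.Helper15.GT

open VC VF Function Pool.Agent.Helper21.TO

universe u

variable {k : Type u} [Field k]

theorem van_hom {F F' : Type u} [Field F] [Algebra k F] [Field F'] [Algebra k F'] {M : ℕ} (h : F →ₐ[k] F')
    (u : Fin M → F) : van k (fun i => h (u i)) = van k u := by
  ext P
  have e := MvPolynomial.comp_aeval_apply (R := k) u h P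
  change MvPolynomial.aeval (fun i => h (u i)) P = 0 ↔ MvPolynomial.aeval u P = 0
  rw [← e]
  exact map_eq_zero_iff h h.toRingHom.injective

theorem van_aut {F : Type u} [Field F] [Algebra k F] {M : ℕ} (h : F ≃ₐ[k] F) (u : Fin M → F) :
    van k (fun i => h (u i)) = van k u := van_hom (h : F →ₐ[k] F) u

end Pool.Agent.Helper15.GT

end CX
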