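import Mathlib
import Pool.Agent.Helper9.NS
import Pool.Agent.Helper40.CX.H15GT.Defs
import Pool.Agent.Helper40.CX.Good2

namespace CX

/-!
# Block GT-EXT: extension of a homomorphism to an algebraically closed field along an integral extension

Let `B` be the integral closure of `A` in `F` (`(integralClosure A F).restrictScalars k`). Let `P` be the
kernel of `θ`, a prime ideal. Lying over (`Ideal.exists_ideal_over_prime_of_isIntegral` or a similar name): there is a prime
`Q` of `B` with `Q ∩ A = P`. The domain `B / Q` is integral over `A / P`, which is embedded in `Kc` by `θ`, so there is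
`B / Q → Kc` by `IsAlgClosed.lift` (needs `Algebra (A / P) Kc` and torsion freeness, from injectivity). Compose with
`B → B / Q`.
-/

set_option linter.unusedSectionVars false

namespace Pool.Agent.Helper15.GT

open VC VF Function Pool.Agent.Helper21.TO

universe u

private lemma lift_dom_77 {R : Type*} {T : Type*} {M : Type*} [CommRing R] [CommRing T] [IsDomain T]
    [Field M] [IsAlgClosed M] (f : R →+* T) (hf : f.IsIntegral) (hinj : Function.Injective f)
    (θ : R →+* M) (hθ : Function.Injective θ) : ∃ g : T →+* M, ∀ a, g (f a) = θ a := by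
  haveI : IsDomain R := hinj.isDomain f
  letI i1 : Algebra R T := f.toAlgebra
  letI i2 : Algebra R M := θ.toAlgebra
  have h1 : FaithfulSMul R T := by
    rw [faithfulSMul_iff_algebraMap_injective]
    exact hinj
  have h2 : FaithfulSMul R M := by
    rw [faithfulSMul_iff_algebraMap_injective]
    exact hθ
  have h3 : Algebra.IsIntegral R T := ⟨hf⟩
  let g : T →ₐ[R] M := IsAlgClosed.lift
  exact ⟨g.toRingHom, fun a => g.commutes a⟩

private lemma lift_ring_77 {A : Type*} {S : Type*} {M : Type*} [CommRing A] [CommRing S]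
    [Algebra A S] [Algebra.IsIntegral A S] (hinj : Function.Injective (algebraMap A S))
    [Field M] [IsAlgClosed M] (θ : A →+* M) :
    ∃ g : S →+* M, ∀ a, g (algebraMap A S a) = θ a := by
  set P : Ideal A := RingHom.ker θ with hP
  have hPp : P.IsPrime := RingHom.ker_isPrime _
  obtain ⟨Q, -, hQp, hQ⟩ := Ideal.exists_ideal_over_prime_of_isIntegral P (⊥ : Ideal S) (by
    intro a ha
    rw [Ideal.mem_comap, Ideal.mem_bot, ← map_zero (algebraMap A S)] at ha
    rw [hinj ha]
    exact P.zero_mem)
  have h3 : (Ideal.quotientMap Q (algebraMap A S) hQ.ge).IsIntegral := by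
    intro x
    obtain ⟨y, rfl⟩ := Ideal.Quotient.mk_surjective x
    obtain ⟨p, hp, hp'⟩ := Algebra.IsIntegral.isIntegral (R := A) y
    refine ⟨p.map (Ideal.Quotient.mk P), hp.map _, ?_⟩
    rw [Polynomial.eval₂_map]
    have h4 : (Ideal.quotientMap Q (algebraMap A S) hQ.ge).comp (Ideal.Quotient.mk P) =
        (Ideal.Quotient.mk Q).comp (algebraMap A S) := by
      ext a
      rfl
    rw [h4, ← Polynomial.hom_eval₂, hp', map_zero]
  obtain ⟨g, hg⟩ := lift_dom_77 (Ideal.quotientMap Q (algebraMap A S) hQ.ge) h3
    (Ideal.quotientMap_injective' hQ.le) (RingHom.kerLift θ) (RingHom.kerLift_injective _)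
  refine ⟨g.comp (Ideal.Quotient.mk Q), fun a => ?_⟩
  exact hg (Ideal.Quotient.mk P a)

theorem exists_ext {k F Kc : Type u} [Field k] [Field F] [Algebra k F] [Field Kc] [IsAlgClosed Kc]
    [Algebra k Kc] (A : Subalgebra k F) (θ : A →ₐ[k] Kc) :
    ∃ (B : Subalgebra k F) (hAB : A ≤ B) (θ' : B →ₐ[k] Kc), (∀ z : F, IsIntegral A z → z ∈ B) ∧
      ∀ a : A, θ' (Subalgebra.inclusion hAB a) = θ a := by
  obtain ⟨g, hg⟩ := lift_ring_77 (A := A) (S := integralClosure A F) (fun a b hab =>
    Subtype.ext (congrArg (fun z : integralClosure A F => (z : F)) hab)) θ.toRingHom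
  refine ⟨(integralClosure A F).restrictScalars k, fun z hz =>
    (algebraMap A (integralClosure A F) ⟨z, hz⟩).2, ⟨g, fun c => ?_⟩, fun z hz => hz,
    fun a => hg a⟩
  exact (hg (algebraMap k A c)).trans (θ.commutes c)

end Pool.Agent.Helper15.GT

end CX
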