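import Mathlib
import Pool.Agent.Helper9.NS
import Pool.Agent.Helper40.CX.H15GT.Defs
import Pool.Agent.Helper40.CX.Good2

namespace CX

/-!
# Block GT-HOM: the homomorphism given by a point of the closure, values in a larger field

As `exists_hom` in Helper21/TO/Hom.lean (its proof may be copied), with values in `K` instead of `k`, for
the vector `x i / x j`. `g j ≠ 0`: otherwise the form `X j` vanishes at `g`, so `x j = 0` by `hs`.
-/

set_option linter.unusedSectionVars false

namespace Pool.Agent.Helper15.GT

open VC VF Function Pool.Agent.Helper21.TO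

universe u

private theorem homog_aeval86 {k : Type u} [Field k] {K : Type u} [Field K] [Algebra k K] {M : ℕ}
    {a g : Fin M → K} {j : Fin M} {c : K} (hg : ∀ i, g i = c * a i)
    (hj : g j = c) (F : MvPolynomial (Fin M) k) :
    MvPolynomial.aeval g (∑ d ∈ Finset.range (F.totalDegree + 1),
      MvPolynomial.homogeneousComponent d F * (MvPolynomial.X j) ^ (F.totalDegree - d)) =
      c ^ F.totalDegree * MvPolynomial.aeval a F := by
  have h0 : g = fun i => c * a i := funext hg
  have hs : MvPolynomial.aeval a F = ∑ d ∈ Finset.range (F.totalDegree + 1),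
      MvPolynomial.aeval a (MvPolynomial.homogeneousComponent d F) := by
    rw [← map_sum, MvPolynomial.sum_homogeneousComponent]
  rw [hs, map_sum, Finset.mul_sum]
  refine Finset.sum_congr rfl fun d hd => ?_
  have hd' : d ≤ F.totalDegree := by
    have := Finset.mem_range.1 hd
    omega
  rw [map_mul, map_pow, MvPolynomial.aeval_X, hj]
  conv_lhs => rw [h0]
  rw [aeval_smul' (MvPolynomial.homogeneousComponent_isHomogeneous d F)]
  have h1 : c ^ F.totalDegree = c ^ d * c ^ (F.totalDegree - d) := by
    rw [← pow_add]
    congr 1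
    omega
  rw [h1]
  ring

theorem exists_homK {k : Type u} [Field k] {Ω : Type u} [Field Ω] [Algebra k Ω] {K : Type u} [Field K]
    [Algebra k K] {M : ℕ} (g : Fin M → Ω) (x : Fin M → K) (hs : Sat (van k g) x) (j : Fin M) (hx : x j ≠ 0) :
    g j ≠ 0 ∧ ∃ χ : Algebra.adjoin k (Set.range (fun i => g i / g j)) →ₐ[k] K,
      ∀ i (hi : g i / g j ∈ Algebra.adjoin k (Set.range (fun i => g i / g j))),
        χ ⟨g i / g j, hi⟩ = x i / x j := by
  have hgj : g j ≠ 0 := by
    intro h0
    apply hx
    have h1 := hs (MvPolynomial.X j) (by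
      change MvPolynomial.aeval g (MvPolynomial.X j) = 0
      rw [MvPolynomial.aeval_X, h0]) 1 (MvPolynomial.isHomogeneous_X k j)
    rwa [MvPolynomial.aeval_X] at h1
  refine ⟨hgj, ?_⟩
  set x' : Fin M → K := fun i => x i / x j with hx'
  have hx'j : x' j = 1 := div_self hx
  have hs' : Sat (van k g) x' := by
    have h1 := hs.smul (x j)⁻¹
    have h2 : (fun i => (x j)⁻¹ * x i) = x' := by
      funext i
      exact (div_eq_inv_mul _ _).symm
    rwa [h2] at h1
  have key : ∀ F : MvPolynomial (Fin M) k, MvPolynomial.aeval (fun i => g i / g j) F = 0 →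
      MvPolynomial.aeval x' F = 0 := by
    intro F hF
    have h1 := homog_aeval86 (a := fun i => g i / g j) (g := g) (j := j) (c := g j)
      (fun i => (mul_div_cancel₀ (g i) hgj).symm) rfl F
    have h2 := homog_aeval86 (a := x') (g := x') (j := j) (c := 1) (fun i => (one_mul _).symm)
      hx'j F
    rw [one_pow, one_mul] at h2
    rw [← h2]
    refine hs' _ ?_ F.totalDegree ?_
    · change MvPolynomial.aeval g _ = 0
      rw [h1, hF, mul_zero]
    · refine MvPolynomial.IsHomogeneous.sum _ _ _ fun d hd => ?_
      have hd' : d ≤ F.totalDegree := by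
        have := Finset.mem_range.1 hd
        omega
      have h3 := (MvPolynomial.homogeneousComponent_isHomogeneous d F).mul
        ((MvPolynomial.isHomogeneous_X k j).pow (F.totalDegree - d))
      rwa [one_mul, Nat.add_sub_cancel' hd'] at h3
  let f : MvPolynomial (Fin M) k →ₐ[k] Algebra.adjoin k (Set.range (fun i => g i / g j)) :=
    (MvPolynomial.aeval (fun i => g i / g j)).codRestrict _ (fun F => by
      rw [Algebra.adjoin_range_eq_range_aeval]
      exact ⟨F, rfl⟩)
  have hf : Function.Surjective f := by
    rintro ⟨y, hy⟩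
    have hy' := hy
    rw [Algebra.adjoin_range_eq_range_aeval] at hy'
    obtain ⟨F, hF⟩ := hy'
    exact ⟨F, Subtype.ext hF⟩
  refine ⟨AlgHom.liftOfSurjective f hf (MvPolynomial.aeval x') (fun F hF => ?_), fun i hi => ?_⟩
  · have h1 : f F = 0 := hF
    exact key F (congrArg Subtype.val h1)
  · have h1 : (⟨g i / g j, hi⟩ : Algebra.adjoin k (Set.range (fun i => g i / g j))) =
        f (MvPolynomial.X i) := by
      apply Subtype.ext
      change g i / g j = MvPolynomial.aeval (fun i => g i / g j) (MvPolynomial.X i)
      rw [MvPolynomial.aeval_X]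
    rw [h1]
    exact (AlgHom.liftOfSurjective_apply _ _ _ _ _).trans (MvPolynomial.aeval_X _ _)

end Pool.Agent.Helper15.GT

end CX
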