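import Mathlib
import Pool.Agent.Helper9.NS
import Pool.Agent.Helper40.CX.H15GT.Defs
import Pool.Agent.Helper40.CX.Good2

namespace CX

/-!
# Block GT-GRID: interpolation on the grid

`gpt M d l i` runs through all vectors of `{0, …, d}^M` (`finFunctionFinEquiv`).
* `interp`: for `e ≤ d` and `a` in a commutative `k`-algebra `R` we have `a ^ e = ∑_{j ≤ d} B_j (a) j ^ e` with the Lagrange
  basis polynomials `B_j` of the nodes `0, …, d` (`Lagrange.sum_basis`, `Lagrange.eq_interpolate_of_eval_eq` or
  `Lagrange.eq_interpolate` for the polynomial `X ^ e`, of degree `< d + 1`; nodes distinct since `k` has characteristic 0).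
  Both sides are sums over the maps `f : ι → Fin M` (`Finset.prod_univ_sum`): the left side is `∑_f ∏_j a (f j) x j (f j) =
  ∑_f (∏_i a i ^ e_f i) ∏_j x j (f j)` with `e_f i = #{j : f j = i} ≤ card ι ≤ d` (`Finset.prod_fiberwise`-type lemma, e.g.
  `Finset.prod_comp` or `Finset.prod_pow_boole`), and `∏_i a i ^ e_f i = ∏_i ∑_{j ≤ d} B_j (a i) j ^ e_f i =
  ∑_l (∏_i B_(gpt l i) (a i)) ∏_i (gpt l i) ^ e_f i` (`Finset.prod_univ_sum`, reindexed by `finFunctionFinEquiv`).
* `nm_ne_zero`: apply `interp` with `R = MvPolynomial (Fin M) K` (algebra over `K`), `x` mapped by `C`, `a = X`: if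
  `nm d x = 0` then the product of the linear forms `∑_i X i * C (x j i)` is zero (`nm_map` with `f = C`), so one of
  them is zero (`MvPolynomial` over a field is a domain), so `x j = 0` (evaluate at `Pi.single i 1`).
-/

set_option linter.unusedSectionVars false

namespace Pool.Agent.Helper15.GT

open VC VF Function Pool.Agent.Helper21.TO

universe u

open Classical in
/-- The Lagrange basis function of the `l`-th point of the grid. -/
noncomputable def lag (k : Type*) [Field k] (M d : ℕ) (l : Fin ((d + 1) ^ M)) : MvPolynomial (Fin M) k :=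
  ∏ i, Polynomial.aeval (MvPolynomial.X i)
    (Lagrange.basis (Finset.range (d + 1)) (nd k) (gpt M d l i))

private lemma one_var_h40 {k R : Type*} [Field k] [Infinite k] [CommRing R] [Algebra k R] (d e : ℕ) (he : e ≤ d)
    (a : R) : a ^ e = ∑ j : Fin (d + 1), Polynomial.aeval a
      (Lagrange.basis (Finset.range (d + 1)) (nd k) (j : ℕ)) * algebraMap k R (nd k (j : ℕ)) ^ e := by
  have hinj : Set.InjOn (nd k) (Finset.range (d + 1)) :=
    fun a _ b _ hab => nd_inj k hab
  have h1 : (Polynomial.X ^ e : Polynomial k) = Lagrange.interpolate (Finset.range (d + 1))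
      (nd k) (fun i => (Polynomial.X ^ e : Polynomial k).eval (nd k i)) := by
    apply Lagrange.eq_interpolate hinj
    rw [Polynomial.degree_X_pow, Finset.card_range]
    exact_mod_cast Nat.lt_succ_of_le he
  have h2 := congrArg (Polynomial.aeval a) h1
  rw [map_pow, Polynomial.aeval_X, Lagrange.interpolate_apply, map_sum] at h2
  rw [h2, Finset.sum_range]
  refine Finset.sum_congr rfl fun j _ => ?_
  rw [map_mul, Polynomial.aeval_C, Polynomial.eval_pow, Polynomial.eval_X, map_pow, mul_comm]

private lemma aeval_lag_h40 {k R : Type*} [Field k] [CommRing R] [Algebra k R] {M d : ℕ} (a : Fin M → R)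
    (l : Fin ((d + 1) ^ M)) : MvPolynomial.aeval a (lag k M d l) = ∏ i, Polynomial.aeval (a i)
      (Lagrange.basis (Finset.range (d + 1)) (nd k) (gpt M d l i)) := by
  unfold lag
  rw [map_prod]
  refine Finset.prod_congr rfl fun i _ => ?_
  rw [← Polynomial.aeval_algHom_apply, MvPolynomial.aeval_X]

private lemma key_h40 {k R : Type*} [Field k] [Infinite k] [CommRing R] [Algebra k R] {ι : Type*} [Fintype ι]
    {M d : ℕ} (hd : Fintype.card ι ≤ d) (a : Fin M → R) (f : ι → Fin M) :
    ∏ j, a (f j) = ∑ l, MvPolynomial.aeval a (lag k M d l) * ∏ j, gp k R M d l (f j) := by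
  classical
  have h0 : ∀ b : Fin M → R, ∏ j, b (f j) = ∏ i, b i ^ (Finset.univ.filter fun j => f j = i).card := by
    intro b
    rw [← Finset.prod_fiberwise' Finset.univ f b]
    refine Finset.prod_congr rfl fun i _ => ?_
    rw [Finset.prod_const]
  rw [h0 a]
  have h1 : ∀ i : Fin M, (Finset.univ.filter fun j => f j = i).card ≤ d := fun i =>
    (Finset.card_le_univ _).trans hd
  rw [Finset.prod_congr rfl fun i _ => one_var_h40 (k := k) d _ (h1 i) (a i), Finset.prod_univ_sum,
    Fintype.piFinset_univ]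
  rw [← Equiv.sum_comp (finFunctionFinEquiv (m := d + 1) (n := M)).symm]
  refine Finset.sum_congr rfl fun l _ => ?_
  rw [h0 (fun i => gp k R M d l i), aeval_lag_h40, ← Finset.prod_mul_distrib]
  rfl

theorem interp {k R : Type*} [Field k] [Infinite k] [CommRing R] [Algebra k R] {ι : Type*} [Fintype ι] {M d : ℕ}
    (hd : Fintype.card ι ≤ d) (x : ι → Fin M → R) (a : Fin M → R) :
    ∏ j, ∑ i, a i * x j i = ∑ l, MvPolynomial.aeval a (lag k M d l) * nm k d x l := by
  classical
  have h1 : ∀ b : Fin M → R, ∏ j, ∑ i, b i * x j i =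
      ∑ f : ι → Fin M, (∏ j, b (f j)) * ∏ j, x j (f j) := by
    intro b
    rw [Finset.prod_univ_sum, Fintype.piFinset_univ]
    refine Finset.sum_congr rfl fun f _ => ?_
    rw [Finset.prod_mul_distrib]
  rw [h1]
  have h2 : ∀ l, MvPolynomial.aeval a (lag k M d l) * nm k d x l =
      ∑ f : ι → Fin M, (MvPolynomial.aeval a (lag k M d l) * ∏ j, gp k R M d l (f j)) *
        ∏ j, x j (f j) := by
    intro l
    rw [nm_apply, h1 (fun i => gp k R M d l i), Finset.mul_sum]
    refine Finset.sum_congr rfl fun f _ => ?_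
    rw [mul_assoc]
  rw [Finset.sum_congr rfl fun l _ => h2 l, Finset.sum_comm]
  refine Finset.sum_congr rfl fun f _ => ?_
  rw [← Finset.sum_mul, ← key_h40 hd a f]

theorem nm_ne_zero {k K : Type*} [Field k] [Infinite k] [Field K] [Algebra k K] {ι : Type*} [Fintype ι] {M d : ℕ}
    (hd : Fintype.card ι ≤ d) (x : ι → Fin M → K) (hx : ∀ j, x j ≠ 0) : nm k d x ≠ 0 := by
  classical
  intro h0
  have h1 := interp (k := k) (R := MvPolynomial (Fin M) K) hd (fun j i => MvPolynomial.C (x j i))
    (fun i => MvPolynomial.X i)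
  have h2 : ∀ l, nm k d (fun j i => (MvPolynomial.C (x j i) : MvPolynomial (Fin M) K)) l = 0 := by
    intro l
    rw [nm_map (k := k) (MvPolynomial.C : K →+* MvPolynomial (Fin M) K) (fun _ => rfl) x l, h0]
    exact map_zero _
  rw [Finset.sum_eq_zero fun l _ => by rw [h2 l, mul_zero], Finset.prod_eq_zero_iff] at h1
  obtain ⟨j, -, hj⟩ := h1
  apply hx j
  funext i
  have h3 := congrArg (MvPolynomial.eval (Pi.single i (1 : K))) hj
  rw [map_sum, map_zero, Finset.sum_eq_single i] at h3
  · rw [map_mul, MvPolynomial.eval_X, MvPolynomial.eval_C, Pi.single_eq_same, one_mul] at h3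
    exact h3
  · intro b _ hb
    rw [map_mul, MvPolynomial.eval_X, Pi.single_eq_of_ne hb, zero_mul]
  · intro h
    exact absurd (Finset.mem_univ i) h

end Pool.Agent.Helper15.GT

end CX
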