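import Mathlib
import Pool.Agent.Helper9.NS
import Pool.Agent.Helper40.CX.H15GT.Defs
import Pool.Agent.Helper40.CX.Good2

namespace CX

/-!
# Block GT-GZ: divisors of degree zero on a curve of genus zero

`IsGenus k K 0` (Helper26/VC/Cycles.lean): `deg D + 1 ≤ dim L(D)` for all `D`; for `deg D = 0` the space `L(D)`, the span of
`{f ≠ 0 : div f + D ≥ 0}`, is not zero, so there is such an `f`. As `deg (div f) = 0` (`degree_zero`) all coefficients of
`div f + D` are zero, so `D = - div f = div f⁻¹`, and `div f ∈ (curve hK).Rat` (`gen_mem` with the morphism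
`Sum.inr (AlgHom.id k K)`, for which `eval v = v`: `Place.comap` of the identity). There is more on divisors in
Helper17/FF (`FF.deg`, `FF.dv`, ...).
-/

set_option linter.unusedSectionVars false

namespace Pool.Agent.Helper15.GT

open VC VF Function Pool.Agent.Helper21.TO

universe u

theorem mem_rat_of_genus_zero {k K : Type u} [Field k] [IsAlgClosed k] [Good k] [Field K] [Algebra k K]
    (hK : IsFunctionField k K) (hg : IsGenus k K 0) (D : Place k K →₀ ℤ) (hD : D.sum (fun _ c => c) = 0) :
    D ∈ (curve hK).Rat := by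
  obtain ⟨h0, -⟩ := hg
  have h1 := h0 D
  have h2 : 0 < Module.finrank k (riemannRochSpace k K D) := by
    have h3 : D.sum (fun _ m => m) = 0 := hD
    rw [h3] at h1
    push_cast at h1
    omega
  obtain ⟨f, hf0, hf⟩ : ∃ f : K, f ≠ 0 ∧ ∀ P : Place k K, 0 ≤ ord P.ring f + D P := by
    by_contra hcon
    have h3 : riemannRochSpace k K D = ⊥ := by
      unfold riemannRochSpace
      rw [Submodule.span_eq_bot]
      rintro f ⟨hf, hf'⟩
      exact absurd ⟨f, hf, hf'⟩ hcon
    rw [h3, finrank_bot] at h2
    exact lt_irrefl _ h2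
  have hE : FF.dv hK f + D = 0 := by
    refine FF.eq_zero_of_deg (fun P => hf P) ?_
    rw [map_add, FF.deg_dv hK hf0, FF.deg_eq, zero_add]
    exact hD
  have hDf : D = FF.dv hK f⁻¹ := by
    rw [FF.dv_inv hK hf0]
    exact eq_neg_of_add_eq_zero_right hE
  rw [hDf]
  have h4 := gen_mem (curve hK) hK (Sum.inr (AlgHom.id k K)) (inv_ne_zero hf0)
  have h5 : FF.dv hK f⁻¹ = ∑ v ∈ (finite_support_ord hK (inv_ne_zero hf0)).toFinset,
      Finsupp.single ((curve hK).eval hK (Sum.inr (AlgHom.id k K)) v) (ord v.ring f⁻¹) := by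
    have h7 : (FF.dv hK f⁻¹).support = (finite_support_ord hK (inv_ne_zero hf0)).toFinset := by
      ext v
      rw [Finsupp.mem_support_iff, Set.Finite.mem_toFinset, FF.dv_apply]
      rfl
    rw [← h7]
    exact ((FF.dv hK f⁻¹).sum_single).symm
  rw [h5]
  exact h4

end Pool.Agent.Helper15.GT

end CX
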