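import Mathlib
import Pool.Agent.Helper9.NS
import Pool.Agent.Helper40.CX.H15GT.Defs
import Pool.Agent.Helper40.CX.H15GT.Uniq
import Pool.Agent.Helper40.CX.Good2

namespace CX

/-!
# Block GT-ZEQ: the value of `Zc`

* `cy_smul`: facts in TO/Defs (`Sat.smul`, `ppt_eq_iff`, definition of `cy`).
* `Zc_eq`: the representative `(ppt y ..).1.rep` is a nonzero multiple of `y`
  (`Projectivization.exists_smul_eq_mk_rep`), so `z` is also a factorization of it; compare with the chosen one by
  `fac_unique`, and use `cy_smul`, `Equiv.sum_comp`.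
-/

set_option linter.unusedSectionVars false

namespace Pool.Agent.Helper15.GT

open VC VF Function Pool.Agent.Helper21.TO

universe u

variable {k : Type u} [Field k] [IsAlgClosed k] [Good k]

theorem cy_smul {M : ℕ} (I : Set (MvPolynomial (Fin M) k)) {a : Fin M → k} {c : k} (hc : c ≠ 0) :
    cy I (fun i => c * a i) = cy I a := by
  classical
  by_cases h : a ≠ 0 ∧ Sat I a
  · have ha' : (fun i => c * a i) ≠ 0 := by
      intro h0
      apply h.1
      funext i
      have := congrFun h0 i
      simpa [hc] using this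
    have h' : (fun i => c * a i) ≠ 0 ∧ Sat I (fun i => c * a i) := ⟨ha', h.2.smul c⟩
    unfold cy
    rw [dif_pos h, dif_pos h']
    congr 1
    rw [ppt_eq_iff]
    exact ⟨c, fun i => rfl⟩
  · have h' : ¬ ((fun i => c * a i) ≠ 0 ∧ Sat I (fun i => c * a i)) := by
      rintro ⟨h1, h2⟩
      apply h
      refine ⟨?_, ?_⟩
      · intro h0
        apply h1
        funext i
        rw [h0]
        simp
      · have := h2.smul c⁻¹
        have e : (fun i => c⁻¹ * (c * a i)) = a := by
          funext i
          rw [← mul_assoc, inv_mul_cancel₀ hc, one_mul]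
        rwa [e] at this
    unfold cy
    rw [dif_neg h, dif_neg h']

theorem Zc_eq {ι : Type*} [Fintype ι] {M d : ℕ} (hd : Fintype.card ι ≤ d)
    (I : Set (MvPolynomial (Fin M) k)) {I' : Set (MvPolynomial (Fin ((d + 1) ^ M)) k)}
    {y : Fin ((d + 1) ^ M) → k} (hy : y ≠ 0) (h : Sat I' y) {z : ι → Fin M → k} (hz : IsFac k d y z) :
    Zc ι I d (ppt y hy h) = ∑ j, cy I (z j) := by
  classical
  have : Infinite k := IsAlgClosed.instInfinite
  obtain ⟨u, hu⟩ := Projectivization.exists_smul_eq_mk_rep k y hy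
  have hz2 : IsFac k d (ppt (I := I') y hy h).1.rep z := by
    obtain ⟨h1, c, hc, h2⟩ := hz
    refine ⟨h1, (u : k) * c, mul_ne_zero u.ne_zero hc, ?_⟩
    intro l
    change (Projectivization.mk k y hy).rep l = _
    rw [← hu, Pi.smul_apply, Units.smul_def, smul_eq_mul, h2 l, mul_assoc]
  have hex : ∃ z : ι → Fin M → k, IsFac k d (ppt (I := I') y hy h).1.rep z := ⟨z, hz2⟩
  unfold Zc
  rw [dif_pos hex]
  obtain ⟨π, c, hc⟩ := fac_unique hd hz2 hex.choose_spec
  rw [← Equiv.sum_comp π]
  refine Finset.sum_congr rfl fun j _ => ?_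
  have e : hex.choose (π j) = fun i => c j * z j i := funext fun i => (hc j).2 i
  rw [e, cy_smul I (hc j).1]

end Pool.Agent.Helper15.GT

end CX
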