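import Mathlib
import Pool.Agent.Helper9.NS
import Pool.Agent.Helper40.CX.H15GT.Defs
import Pool.Agent.Helper40.CX.H15GT.Fac
import Pool.Agent.Helper40.CX.H15GT.ZEq
import Pool.Agent.Helper40.CX.Good2

namespace CX

/-!
# Block GT-LIFT: the cycle `Zc y` is a correspondence

`c i ∈ PPt k K (van k (nm d x))`, `i < n`: `c i = ppt (y i)` (`exists_ppt`). Let `Kc = AlgebraicClosure K` and factor the image of `y i` in
`Kc` (`exists_fac`; the image satisfies the equations: `MvPolynomial.aeval_algebraMap_apply`, as in `ppull` in TO/Defs):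
`y i l = c0 i * nm d (z i) l` with `z i : ι → Fin M → Kc`. Let `K'` be the intermediate field of `Kc / K` generated by all
coordinates `z i j m` (finitely many algebraic elements, so finite over `K`: `IntermediateField.finiteDimensional_adjoin`), a
function field by `ff_ext`. The `z i j` are vectors with coordinates in `K'` satisfying `I` and give `P i j ∈ (proj k I).Mor K'`;
enumerate `ι` by `Fin (card ι)` (`Fintype.equivFin`), all `e = 1`. Claim, for a place `w` of `K'`:
`Zc ((proj ..).eval hK (c i) (res w)) = ∑_j [(P i j) (w)]`. By `exists_pcoord` for `P i j` and `w`: `P i j = ppt (z' j)`,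
`z' j` a multiple of `z i j` (`ppt_eq_iff`), residues `b j ≠ 0`, `(proj k I).eval hK' (P i j) w = ppt (b j)`. Then
`nm d z'` has the residues `nm d b ≠ 0` (`nm_ne_zero`; `IsRes` is compatible with sums and products, natural numbers:
`IsRes.add`, `IsRes.mul`, `isRes_const`, see `isRes_mvaeval`) and is a multiple of the image of `y i` in `K'`. By `ppull` there is
`c' ∈ Mor K'` with `eval c' w = eval (c i) (res w)`; it is simpler to show directly that
`(proj k _).eval hK (c i) (res w) = ppt (nm d b)`: as in the proof of `ppull`, `eval hK (ppt y) (res w) = eval hK' (ppt (image of y)) w` and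
the right side is computed by `peval_eq'`. So `Zc (ppt (nm d b)) = ∑_j cy I (b j) = ∑_j [ppt (b j)]` by `Zc_eq` and the
definition of `cy`.
-/

set_option linter.unusedSectionVars false

namespace Pool.Agent.Helper15.GT

open VC VF Function Pool.Agent.Helper21.TO

universe u

variable {k : Type u} [Field k] [IsAlgClosed k] [Good k]

private lemma h93_prod {K : Type u} [Field K] [Algebra k K] {v : Place k K} {ι : Type*} (s : Finset ι)
    {f : ι → K} {g : ι → k} (h : ∀ i ∈ s, IsRes v (f i) (g i)) :
    IsRes v (∏ i ∈ s, f i) (∏ i ∈ s, g i) := by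
  classical
  induction s using Finset.induction_on with
  | empty => simpa using isRes_one
  | insert a s ha ih =>
    rw [Finset.prod_insert ha, Finset.prod_insert ha]
    exact (h a (Finset.mem_insert_self _ _)).mul
      (ih (fun i hi => h i (Finset.mem_insert_of_mem hi)))

private lemma h93_nm {K : Type u} [Field K] [Algebra k K] {v : Place k K} {ι : Type*} [Fintype ι] {M d : ℕ}
    {x : ι → Fin M → K} {b : ι → Fin M → k} (h : ∀ j i, IsRes v (x j i) (b j i)) (l : Fin ((d + 1) ^ M)) :
    IsRes v (nm k d x l) (nm k d b l) := by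
  unfold nm
  refine h93_prod _ fun j _ => IsRes.sum _ fun i _ => ?_
  have h1 : IsRes v (gp k K M d l i) (gp k k M d l i) := isRes_const _
  exact h1.mul (h j i)

theorem cor_Zc {F : Type u} [Field F] [Algebra k F] {ι : Type*} [Fintype ι] {M d : ℕ}
    (hd : Fintype.card ι ≤ d) (I : Set (MvPolynomial (Fin M) k)) (x : ι → Fin M → F)
    (hx : ∀ j, Sat I (x j)) : Cor (proj k (van k (nm k d x))) (proj k I) (Zc ι I d) := by
  classical
  have : Infinite k := IsAlgClosed.instInfinite
  intro K _ _ hK n c
  choose y hy0 hys hcy using fun i => exists_ppt (c i)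
  -- the factorization over the algebraic closure
  have hy0' : ∀ i, (fun l => algebraMap K (AlgebraicClosure K) (y i l)) ≠ 0 := by
    intro i h0
    apply hy0 i
    funext l
    exact (_root_.map_eq_zero _).mp (congrFun h0 l)
  have hys' : ∀ i, Sat (van k (nm k d x)) (fun l => algebraMap K (AlgebraicClosure K) (y i l)) := by
    intro i P hP m hm
    have e : MvPolynomial.aeval (fun l => algebraMap K (AlgebraicClosure K) (y i l)) P =
        algebraMap K (AlgebraicClosure K) (MvPolynomial.aeval (y i) P) :=
      MvPolynomial.aeval_algebraMap_apply (AlgebraicClosure K) (y i) P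
    rw [e, hys i P hP m hm, map_zero]
  choose z hz hzs using fun i => exists_fac hd I x hx _ (hy0' i) (hys' i)
  choose cc hcc0 hcc using fun i => (hz i).2
  have hzne : ∀ i j, z i j ≠ 0 := fun i => (hz i).1
  -- the finite extension
  set S : Set (AlgebraicClosure K) :=
    Set.range (fun p : Fin n × ι × Fin M => z p.1 p.2.1 p.2.2) ∪ Set.range cc with hSdef
  have hS : Finite S := ((Set.finite_range _).union (Set.finite_range _)).to_subtype
  let L : IntermediateField K (AlgebraicClosure K) := IntermediateField.adjoin K S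
  have hfin : FiniteDimensional K L := by
    apply IntermediateField.finiteDimensional_adjoin
    intro x _
    exact (Algebra.IsAlgebraic.isAlgebraic x).isIntegral
  have hL : IsFunctionField k L := ff_ext (F := K) hK
  have hzL : ∀ i j m, z i j m ∈ L := fun i j m =>
    IntermediateField.subset_adjoin K S (Or.inl ⟨(i, j, m), rfl⟩)
  have hcL : ∀ i, cc i ∈ L := fun i => IntermediateField.subset_adjoin K S (Or.inr ⟨i, rfl⟩)
  let κ : L →ₐ[k] AlgebraicClosure K := L.val.restrictScalars k
  have hκ : Function.Injective κ := κ.toRingHom.injective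
  let zL : Fin n → ι → Fin M → L := fun i j m => ⟨z i j m, hzL i j m⟩
  let cL : Fin n → L := fun i => ⟨cc i, hcL i⟩
  have hzL0 : ∀ i j, zL i j ≠ 0 := by
    intro i j h0
    apply hzne i j
    funext m
    exact congrArg Subtype.val (congrFun h0 m)
  have hcL0 : ∀ i, cL i ≠ 0 := by
    intro i h0
    exact hcc0 i (congrArg Subtype.val h0)
  have hsatL : ∀ i j, Sat I (zL i j) := by
    intro i j P hP m hm
    apply hκ
    rw [map_zero]
    have e : κ (MvPolynomial.aeval (zL i j) P) = MvPolynomial.aeval (fun m => κ (zL i j m)) P :=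
      MvPolynomial.comp_aeval_apply (zL i j) κ P
    rw [e]
    exact hzs i j P hP m hm
  have hfacL : ∀ i l, algebraMap K L (y i l) = cL i * nm k d (zL i) l := by
    intro i l
    apply hκ
    have h1 : κ (algebraMap K L (y i l)) = algebraMap K (AlgebraicClosure K) (y i l) := rfl
    have h2 : κ (cL i * nm k d (zL i) l) = cc i * nm k d (z i) l := by
      rw [map_mul]
      congr 1
      exact (nm_map (k := k) κ.toRingHom (fun c => κ.commutes c) (zL i) l).symm
    rw [h1, h2]
    exact hcc i l
  refine ⟨L, inferInstance, inferInstance, inferInstance, inferInstance, hL, fun i => ?_⟩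
  -- the morphisms
  let P : ι → (proj k I).Mor L := fun j => ppt (zL i j) (hzL0 i j) (hsatL i j)
  refine ⟨Fintype.card ι, fun l => P ((Fintype.equivFin ι).symm l), fun _ => 1, fun w => ?_⟩
  rw [Equiv.sum_comp (Fintype.equivFin ι).symm (fun j => Finsupp.single ((proj k I).eval hL (P j) w) (1 : ℤ))]
  -- coordinates adapted to `w`
  choose z' hz'0 hz's b hb0 hbs e1 e2 hv using fun j => exists_pcoord hL w (P j)
  have hprop : ∀ j, ∃ s : L, ∀ m, s * z' j m = zL i j m := fun j => ppt_eq_iff.1 (e1 j)
  choose s hs using hprop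
  have hs0 : ∀ j, s j ≠ 0 := by
    intro j h0
    apply hzL0 i j
    funext m
    rw [← hs j m, h0, zero_mul]
    rfl
  have hnm : ∀ l, nm k d (zL i) l = (∏ j, s j) * nm k d z' l := by
    intro l
    rw [← nm_smul]
    have : (fun j m => s j * z' j m) = zL i := by
      funext j m
      exact hs j m
    rw [this]
  -- coordinates of `c i` adapted to the place below
  obtain ⟨a', ha'0, ha's, b', hb'0, hb's, e3, e4, hv'⟩ := exists_pcoord hK (VQ.res hK hL w) (c i)
  show Zc ι I d ((proj k (van k (nm k d x))).eval hK (c i) (VQ.res hK hL w)) = _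
  rw [e4]
  have hprop' : ∃ t : K, ∀ l, t * a' l = y i l := by
    rw [hcy i] at e3
    exact ppt_eq_iff.1 e3
  obtain ⟨t, ht⟩ := hprop'
  have ht0 : t ≠ 0 := by
    intro h0
    apply hy0 i
    funext l
    rw [← ht l, h0, zero_mul]
    rfl
  have hvw : ∀ l, IsRes w (algebraMap K L (a' l)) (b' l) := fun l => over_res hK hL w _ _ (hv' l)
  have hvn : ∀ l, IsRes w (nm k d z' l) (nm k d b l) := fun l => h93_nm (fun j m => hv j m) l
  have hrel : ∀ l, algebraMap K L t * algebraMap K L (a' l) = cL i * (∏ j, s j) * nm k d z' l := by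
    intro l
    rw [← map_mul, ht l, hfacL i l, hnm l, mul_assoc]
  have htL : algebraMap K L t ≠ 0 := (_root_.map_ne_zero _).2 ht0
  have hcross : ∀ l l', algebraMap K L (a' l) * nm k d z' l' = algebraMap K L (a' l') * nm k d z' l := by
    intro l l'
    apply mul_left_cancel₀ htL
    linear_combination (nm k d z' l') * hrel l - (nm k d z' l) * hrel l'
  have hcross' : ∀ l l', b' l * nm k d b l' = b' l' * nm k d b l := by
    intro l l'
    have h1 := (hvw l).mul (hvn l')
    have h2 := (hvw l').mul (hvn l)
    rw [hcross l l'] at h1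
    exact h1.unique h2
  have hnb : nm k d b ≠ 0 := nm_ne_zero hd b hb0
  have hfac : IsFac k d b' b := by
    obtain ⟨l0, hl0⟩ := Function.ne_iff.mp hnb
    have hl0' : nm k d b l0 ≠ 0 := hl0
    refine ⟨hb0, b' l0 / nm k d b l0, ?_, fun l => ?_⟩
    · intro h0
      rw [div_eq_zero_iff] at h0
      rcases h0 with h0 | h0
      · apply hb'0
        funext l
        have := hcross' l l0
        rw [h0, zero_mul] at this
        exact (mul_eq_zero.1 this).resolve_right hl0'
      · exact hl0' h0
    · have := hcross' l l0
      field_simp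
      exact this
  rw [Zc_eq hd I hb'0 hb's hfac]
  refine Finset.sum_congr rfl fun j _ => ?_
  have h1 : cy I (b j) = Finsupp.single (ppt (b j) (hb0 j) (hbs j)) 1 := by
    unfold cy
    rw [dif_pos ⟨hb0 j, hbs j⟩]
  rw [h1, e2 j]

end Pool.Agent.Helper15.GT

end CX
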