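import Mathlib
import Pool.Agent.Helper9.NS
import Pool.Agent.Helper40.CX.H15GT.RP
import Pool.Agent.Helper40.CX.Good2

namespace CX

/-!
# GT: cycles of rational places, Voisin's property for Albanese trivial cycles

A formal integral combination of rational places of `F` is called Albanese trivial here if it has degree zero and its
restriction to every function field of one variable embedded in `F` is a principal divisor.
-/

set_option linter.unusedSectionVars false

namespace Pool.Agent.Helper15.GT

open VC VF Function Pool.Agent.Helper21.TO

universe u

variable {k F : Type u} [Field k] [IsAlgClosed k] [Good k] [Field F] [Algebra k F]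

/-- The formal combination `a` of rational places of `F` has degree zero, and its restrictions to the
function fields of one variable in `F` are principal divisors. -/
def AJ (k F : Type u) [Field k] [IsAlgClosed k] [Good k] [Field F] [Algebra k F]
    (a : RPl k F →₀ ℤ) : Prop :=
  a.sum (fun _ c => c) = 0 ∧ ∀ (K : Type u) [Field K] [Algebra k K] (hK : IsFunctionField k K)
    (j : K →ₐ[k] F), a.mapDomain (RPl.pl hK j) ∈ (curve hK).Rat

/-- Voisin's property for `n > p` for Albanese trivial cycles, for all closures of points with
coordinates in `F`. -/
def VPJ (k F : Type u) [Field k] [IsAlgClosed k] [Good k] [Field F] [Algebra k F] (p : ℕ) : Prop :=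
  ∀ (M : ℕ) (ξ : Fin M → F) (hξ : ξ ≠ 0) (n : ℕ), p < n →
    VoisinOn (proj k (van k ξ)) {b | ∃ a : RPl k F →₀ ℤ, AJ k F a ∧ b = a.mapDomain (evP ξ hξ)} n

end Pool.Agent.Helper15.GT

end CX
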