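import Mathlib
import Pool.Agent.Helper9.NS
import Pool.Agent.Helper40.CX.H15GT.RDefs
import Pool.Agent.Helper40.CX.H15GT.ExtP
import Pool.Agent.Helper40.CX.H21TO.Cs
import Pool.Agent.Helper40.CX.H21TB.Hrm
import Pool.Agent.Helper40.CX.H21TB.Pull
import Pool.Agent.Helper40.CX.H21TB.Sep
import Pool.Agent.Helper40.CX.H21TB.PlaceOf
import Pool.Agent.Helper40.CX.Good2

namespace CX

/-!
# GT: a functional which comes from the base at general places comes from the base
-/

set_option linter.unusedSectionVars false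

namespace Pool.Agent.Helper15.GT

open VC VF Function Pool.Agent.Helper21.TO Pool.Agent.Helper21.TB
open Pool.Agent.Helper51.VN (Harm)

universe u

variable {k F K : Type u} [Field k] [IsAlgClosed k] [Good k] [Field F] [Algebra k F] [Field K]
  [Algebra k K]

private lemma finite_poles15 {K : Type u} [Field K] [Algebra k K] (hK : IsFunctionField k K)
    (f : K) : {w : Place k K | f ∉ w.ring}.Finite := by
  by_cases hf : f = 0
  · subst hf
    have e : {w : Place k K | (0 : K) ∉ w.ring} = ∅ := by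
      ext w
      simp only [Set.mem_ofPred_eq, Set.mem_empty_iff_false, iff_false, not_not]
      exact w.ring.zero_mem
    rw [e]
    exact Set.finite_empty
  · refine (finite_support_ord hK hf).subset fun w hw h0 => hw ?_
    exact (ord_nonneg_iff hK w hf).mp h0.ge

private lemma exists_reshom15 {K : Type u} [Field K] [Algebra k K] (hK : IsFunctionField k K)
    {A : Type u} [CommRing A] [Algebra k A] (χ : A →ₐ[k] K) (w : Place k K)
    (h : ∀ z, χ z ∈ w.ring) : ∃ χw : A →ₐ[k] k, ∀ z, IsRes w (χ z) (χw z) := by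
  choose f hf using fun z => VF.exists_res hK (h z)
  refine ⟨{ toFun := f, map_one' := ?_, map_mul' := ?_, map_zero' := ?_, map_add' := ?_,
            commutes' := ?_ }, hf⟩
  · exact (hf 1).unique (by rw [map_one]; exact isRes_one)
  · intro a b
    exact (hf (a * b)).unique (by rw [map_mul]; exact (hf a).mul (hf b))
  · exact (hf 0).unique (by rw [map_zero]; exact isRes_zero)
  · intro a b
    exact (hf (a + b)).unique (by rw [map_add]; exact (hf a).add (hf b))
  · intro r
    exact (hf _).unique (by rw [AlgHom.commutes]; exact isRes_const r)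

omit [IsAlgClosed k] [Good k] in
private lemma exists_reshom_rpl (w : RPl k F) (A : Subalgebra k F) (h : ∀ z ∈ A, z ∈ w.ring) :
    ∃ χw : A →ₐ[k] k, ∀ z : A, Rs w (z : F) (χw z) := by
  choose f hf using fun z : A => exists_rs (w := w) (h z z.2)
  refine ⟨{ toFun := f, map_one' := ?_, map_mul' := ?_, map_zero' := ?_, map_add' := ?_,
            commutes' := ?_ }, hf⟩
  · exact (hf 1).unique rs_one
  · intro a b
    exact (hf (a * b)).unique ((hf a).mul (hf b))
  · exact (hf 0).unique rs_zero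
  · intro a b
    exact (hf (a + b)).unique ((hf a).add (hf b))
  · intro r
    exact (hf _).unique (rs_const r)

/-- A functional on the closure of the point `ξ` which comes from the base at general places comes from the
base. -/
theorem moving (hK : IsFunctionField k K) (κ : K →ₐ[k] F) {M : ℕ} (ξ : Fin M → F) (hξ : ξ ≠ 0)
    {φ : (proj k (van k ξ)).Pt → ℂ} (hφ : Kills (proj k (van k ξ)) φ) {l : Place k K → ℂ}
    (hl : Harm hK l) (G0 : Set F) (hG0 : G0.Finite)
    (h : ∀ w : RPl k F, (∀ z ∈ G0, z ∈ w.ring) → φ (evP ξ hξ w) = l (w.pl hK κ)) (w : RPl k F) :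
    φ (evP ξ hξ w) = l (w.pl hK κ) := by
  classical
  -- normalized coordinates of the value
  obtain ⟨b₁, hb₁, hs₁, hv₁, he₁⟩ := exists_evP ξ hξ w
  obtain ⟨i0, hi0⟩ := Function.ne_iff.mp hb₁
  have hi0' : b₁ i0 ≠ 0 := hi0
  set b : Fin M → k := fun i => (b₁ i0)⁻¹ * b₁ i with hbdef
  have hv : Vl w ξ b := hv₁.smul (inv_ne_zero hi0')
  have hbi : b i0 = 1 := inv_mul_cancel₀ hi0'
  have he : evP ξ hξ w = ppt b hv.1 hv.sat := evP_eq hξ hv hv.1 hv.sat
  obtain ⟨hb0, r, hr⟩ := id hv
  have hr0 := Vl.r_ne hb0 hr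
  have hξi : ξ i0 ≠ 0 := by
    intro h0
    have h1 := hr i0
    rw [h0, mul_zero, hbi] at h1
    exact zero_ne_one (rs_zero.unique h1)
  have hrat : ∀ i, Rs w (ξ i / ξ i0) (b i) := by
    intro i
    have h1 := (hr i).div (hr i0) (by rw [hbi]; exact one_ne_zero)
    rw [hbi, div_one] at h1
    rwa [mul_div_mul_left _ _ hr0] at h1
  set P := w.pl hK κ with hP
  obtain ⟨V, hVP, -, hVgen, hVsep⟩ := exists_sep hK P
  -- the algebras
  set G1 : Set F := Set.range (fun i => ξ i / ξ i0) ∪ κ '' (V : Set K) with hG1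
  have hG1f : G1.Finite := (Set.finite_range _).union (V.finite_toSet.image _)
  set G : Set F := G1 ∪ G0 with hG
  have hGf : G.Finite := hG1f.union hG0
  set R : Subalgebra k F := Algebra.adjoin k G1 with hR
  set R' : Subalgebra k F := Algebra.adjoin k G with hR'
  have hsub : ∀ z, z ∈ G → z ∈ R' := fun z hz => Algebra.subset_adjoin hz
  have hsub1 : ∀ z, z ∈ G1 → z ∈ R := fun z hz => Algebra.subset_adjoin hz
  have f1 : Algebra.FiniteType k R' :=
    (Subalgebra.fg_iff_finiteType _).mp (Subalgebra.fg_def.mpr ⟨G, hGf, rfl⟩)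
  have f2 : Algebra.FiniteType k R :=
    (Subalgebra.fg_iff_finiteType _).mp (Subalgebra.fg_def.mpr ⟨G1, hG1f, rfl⟩)
  have hRR : R ≤ R' := Algebra.adjoin_mono Set.subset_union_left
  have hRw : ∀ z ∈ R, z ∈ w.ring := by
    intro z hz
    induction hz using Algebra.adjoin_induction with
    | mem z hz =>
      rcases hz with ⟨i, rfl⟩ | ⟨a, ha, rfl⟩
      · exact (hrat i).mem
      · exact hVP a ha
    | algebraMap c => exact w.alg c
    | add x y _ _ hx hy => exact w.ring.add_mem _ _ hx hy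
    | mul x y _ _ hx hy => exact w.ring.mul_mem _ _ hx hy
  obtain ⟨χ0, hχ0⟩ := exists_reshom_rpl w R hRw
  let _ : Algebra R R' := (Subalgebra.inclusion hRR).toRingHom.toAlgebra
  have _ : IsScalarTower k R R' := IsScalarTower.of_algebraMap_eq (fun r => rfl)
  have hinj : Injective (algebraMap R R') := Subalgebra.inclusion_injective hRR
  obtain ⟨K1, iK, iA, hK1, χ, v0, hv0⟩ := curve_selection hinj χ0
  -- the morphism to the model
  have hr1 : ∀ i, ξ i / ξ i0 ∈ G1 := fun i => Or.inl ⟨i, rfl⟩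
  let rr : Fin M → R' := fun i => ⟨ξ i / ξ i0, hRR (hsub1 _ (hr1 i))⟩
  let c : Fin M → K1 := fun i => χ (rr i)
  have hvanr : ∀ P ∈ van k ξ, ∀ n, P.IsHomogeneous n → MvPolynomial.aeval rr P = 0 := by
    intro P hP n hn
    apply Subtype.ext
    have h1 := MvPolynomial.comp_aeval_apply (R := k) rr R'.val P
    have h3 : (fun i => R'.val (rr i)) = fun i => (ξ i0)⁻¹ * ξ i := by
      funext i
      change ξ i / ξ i0 = _
      rw [div_eq_inv_mul]
    have h4 : MvPolynomial.aeval ξ P = 0 := hP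
    rw [h3, aeval_smul' hn, h4, mul_zero] at h1
    exact h1
  have hcs : Sat (van k ξ) c := by
    intro P hP n hn
    have h1 := MvPolynomial.comp_aeval_apply (R := k) rr χ P
    rw [hvanr P hP n hn, map_zero] at h1
    exact h1.symm
  have hrj : rr i0 = 1 := Subtype.ext (div_self hξi)
  have hcj : c i0 = 1 := by
    change χ (rr i0) = 1
    rw [hrj, map_one]
  have hc : c ≠ 0 := by
    intro h0
    have h1 := congrFun h0 i0
    rw [hcj] at h1
    exact one_ne_zero h1
  have hc0 : (proj k (van k ξ)).eval hK1 (ppt c hc hcs) v0 = ppt b hv.1 hv.sat := by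
    refine peval_eq hK1 v0 hc hcs hv.1 hv.sat (fun i => ?_)
    have h1 := hv0 ⟨ξ i / ξ i0, hsub1 _ (hr1 i)⟩
    have h2 := hχ0 ⟨ξ i / ξ i0, hsub1 _ (hr1 i)⟩
    rw [h2.unique (hrat i)] at h1
    exact h1
  -- the morphism to the base
  have hVG : ∀ a ∈ V, κ a ∈ G1 := fun a ha => Or.inr ⟨a, ha, rfl⟩
  have hVR : Algebra.adjoin k (V : Set K) ≤ R'.comap κ :=
    Algebra.adjoin_le fun a ha => hRR (hsub1 _ (hVG a ha))
  let ψ0 : Algebra.adjoin k (V : Set K) →ₐ[k] R' :=
    AlgHom.codRestrict (κ.comp (Algebra.adjoin k (V : Set K)).val) R' (fun z => hVR z.2)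
  obtain ⟨c', hc'⟩ := place_of hK V hVgen hVsep hK1 (χ.comp ψ0)
  have hP0 : (curve hK).eval hK1 c' v0 = P := hc' v0 P fun a ha => by
    refine ⟨χ0 ⟨κ a, hsub1 _ (hVG a ha)⟩, hv0 ⟨κ a, hsub1 _ (hVG a ha)⟩, ?_⟩
    exact (isRes_pl hK κ w a _).mpr (hχ0 ⟨κ a, hsub1 _ (hVG a ha)⟩)
  have harm : Harm hK1 (fun w' => φ ((proj k (van k ξ)).eval hK1 (ppt c hc hcs) w') -
      l ((curve hK).eval hK1 c' w')) :=
    harm_sub (harm_kills hφ hK1 _) (harm_kills (harm_curve hl) hK1 c')
  have _ : Finite G := hGf.to_subtype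
  have hz : ∀ w' ∉ ⋃ z : G, {w' : Place k K1 | χ ⟨z.1, hsub z.1 z.2⟩ ∉ w'.ring},
      φ ((proj k (van k ξ)).eval hK1 (ppt c hc hcs) w') - l ((curve hK).eval hK1 c' w') = 0 := by
    intro w' hw'
    have hreg : ∀ z (hz : z ∈ G), χ ⟨z, hsub z hz⟩ ∈ w'.ring := by
      intro z hz
      by_contra h0
      exact hw' (Set.mem_iUnion.mpr ⟨⟨z, hz⟩, h0⟩)
    have hall : ∀ z : R', χ z ∈ w'.ring := by
      rintro ⟨z, hz⟩
      induction hz using Algebra.adjoin_induction with
      | mem z hz => exact hreg z hz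
      | algebraMap s =>
        have h1 : χ (algebraMap k R' s) ∈ w'.ring := by
          rw [AlgHom.commutes]
          exact w'.algebraMap_mem s
        exact h1
      | add a b ha hb h1 h2 =>
        have h3 : (⟨a + b, add_mem ha hb⟩ : R') = ⟨a, ha⟩ + ⟨b, hb⟩ := rfl
        rw [h3, map_add]
        exact w'.ring.add_mem _ _ h1 h2
      | mul a b ha hb h1 h2 =>
        have h3 : (⟨a * b, mul_mem ha hb⟩ : R') = ⟨a, ha⟩ * ⟨b, hb⟩ := rfl
        rw [h3, map_mul]
        exact w'.ring.mul_mem _ _ h1 h2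
    obtain ⟨χw, hχw⟩ := exists_reshom15 hK1 χ w' hall
    obtain ⟨w'', hw''⟩ := exists_rpl R' χw
    have h1 := h w'' (fun z hz => (hw'' ⟨z, hsub z (Or.inr hz)⟩).mem)
    have h2 : (proj k (van k ξ)).eval hK1 (ppt c hc hcs) w' = evP ξ hξ w'' := by
      have h3 : Vl w'' ξ (fun i => χw (rr i)) := by
        refine ⟨?_, (ξ i0)⁻¹, fun i => ?_⟩
        · intro h0
          have h4 := congrFun h0 i0
          rw [hrj, map_one] at h4
          exact one_ne_zero h4
        · have h4 := hw'' (rr i)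
          have h5 : (ξ i0)⁻¹ * ξ i = (rr i : F) := by
            change _ = ξ i / ξ i0
            rw [div_eq_inv_mul]
          rw [h5]
          exact h4
      rw [evP_eq hξ h3 h3.1 h3.sat]
      exact peval_eq hK1 w' hc hcs h3.1 h3.sat (fun i => hχw (rr i))
    have h3 : (curve hK).eval hK1 c' w' = w''.pl hK κ := hc' w' _ fun a ha => by
      refine ⟨χw ⟨κ a, hRR (hsub1 _ (hVG a ha))⟩, hχw ⟨κ a, hRR (hsub1 _ (hVG a ha))⟩, ?_⟩
      exact (isRes_pl hK κ w'' a _).mpr (hw'' ⟨κ a, hRR (hsub1 _ (hVG a ha))⟩)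
    rw [h2, h3, h1, sub_self]
  have h4 := harm_zero harm (Set.finite_iUnion fun z => finite_poles15 hK1 _) hz v0
  beta_reduce at h4
  rw [hc0, hP0, sub_eq_zero] at h4
  rw [he]
  exact h4

end Pool.Agent.Helper15.GT

end CX
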