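import Mathlib
import Pool.Agent.Helper9.NS
import Pool.Agent.Helper40.CX.H15GT.RDefs
import Pool.Agent.Helper40.CX.H15GT.ZEq
import Pool.Agent.Helper40.CX.Good2

namespace CX

/-!
# GT: the cycle given by the center of a restricted place
-/

set_option linter.unusedSectionVars false

namespace Pool.Agent.Helper15.GT

open VC VF Function Pool.Agent.Helper21.TO

universe u

variable {k : Type u} [Field k]

theorem vl_nm {F : Type u} [Field F] [Algebra k F] [Infinite k] {ι : Type*} [Fintype ι] {M d : ℕ}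
    (hd : Fintype.card ι ≤ d) {w : RPl k F} {x : ι → Fin M → F} {b : ι → Fin M → k}
    (h : ∀ j, Vl w (x j) (b j)) : Vl w (nm k d x) (nm k d b) := by
  choose hb r hr using h
  refine ⟨nm_ne_zero hd b hb, ∏ j, r j, fun l => ?_⟩
  rw [← nm_smul]
  exact rs_nm hr l

/-- The norm vector is fixed by the group. -/
lemma nm_tr_fixed {F : Type u} [Field F] [Algebra k F] {G : Type u} [Group G] (ρ : G →* (F ≃ₐ[k] F)) {M : ℕ}
    (ξ : Fin M → F) (Γ : Subgroup G) [Fintype Γ] {d : ℕ} (γ : G) (hγ : γ ∈ Γ) (l : Fin ((d + 1) ^ M)) :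
    ρ γ (nm k d (tr ρ ξ (fun γ : Γ => (γ : G))) l) = nm k d (tr ρ ξ (fun γ : Γ => (γ : G))) l := by
  have h1 := nm_map (k := k) (d := d) ((ρ γ : F ≃ₐ[k] F) : F →+* F) (fun c => (ρ γ).commutes c) (tr ρ ξ (fun γ : Γ => (γ : G))) l
  have h2 : (fun j i => ((ρ γ : F ≃ₐ[k] F) : F →+* F) (tr ρ ξ (fun γ : Γ => (γ : G)) j i)) =
      fun j => tr ρ ξ (fun γ : Γ => (γ : G)) ((Equiv.mulLeft (⟨γ, hγ⟩ : Γ)) j) := by
    funext j i
    change ρ γ (ρ (j : G) (ξ i)) = ρ ((⟨γ, hγ⟩ : Γ) * j : Γ) (ξ i)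
    rw [Subgroup.coe_mul, map_mul]
    rfl
  rw [h2, nm_perm] at h1
  exact h1.symm

/-- The norm vector, with coordinates in the fixed field. -/
noncomputable def fixV {F : Type u} [Field F] [Algebra k F] {G : Type u} [Group G] (ρ : G →* (F ≃ₐ[k] F))
    {M : ℕ} (ξ : Fin M → F) (Γ : Subgroup G) [Fintype Γ] (d : ℕ) :
    Fin ((d + 1) ^ M) → IntermediateField.fixedField (Γ.map ρ) := fun l =>
  ⟨nm k d (tr ρ ξ (fun γ : Γ => (γ : G))) l, by
    rw [IntermediateField.mem_fixedField_iff]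
    rintro f ⟨γ, hγ, rfl⟩
    exact nm_tr_fixed ρ ξ Γ γ hγ l⟩

variable [IsAlgClosed k] [Good k]

lemma van_fixV {F : Type u} [Field F] [Algebra k F] {G : Type u} [Group G] (ρ : G →* (F ≃ₐ[k] F)) {M : ℕ}
    (ξ : Fin M → F) (Γ : Subgroup G) [Fintype Γ] (d : ℕ) :
    van k (fixV ρ ξ Γ d) = van k (nm k d (tr ρ ξ (fun γ : Γ => (γ : G)))) :=
  (van_hom (IntermediateField.val _) (fixV ρ ξ Γ d)).symm

lemma tr_ne_zero {F : Type u} [Field F] [Algebra k F] {G : Type u} [Group G] (ρ : G →* (F ≃ₐ[k] F)) {M : ℕ}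
    {ξ : Fin M → F} (hξ : ξ ≠ 0) {κ : Type*} (s : κ → G) (j : κ) : tr ρ ξ s j ≠ 0 := by
  intro h0
  apply hξ
  funext i
  exact (map_eq_zero_iff (ρ (s j)) (ρ (s j)).injective).mp (congrFun h0 i)

lemma fixV_ne_zero {F : Type u} [Field F] [Algebra k F] {G : Type u} [Group G] (ρ : G →* (F ≃ₐ[k] F)) {M : ℕ}
    {ξ : Fin M → F} (hξ : ξ ≠ 0) (Γ : Subgroup G) [Fintype Γ] {d : ℕ} (hd : Fintype.card Γ ≤ d) :
    fixV ρ ξ Γ d ≠ 0 := by
  have : Infinite k := IsAlgClosed.instInfinite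
  intro h0
  apply nm_ne_zero (k := k) hd (tr ρ ξ (fun γ : Γ => (γ : G))) (tr_ne_zero ρ hξ _)
  funext l
  exact congrArg Subtype.val (congrFun h0 l)

/-- The cycle given by the center of the restriction of the translate of a place to the fixed field. -/
theorem Z_ev {F : Type u} [Field F] [Algebra k F] {G : Type u} [Group G] (ρ : G →* (F ≃ₐ[k] F)) {M : ℕ}
    {ξ : Fin M → F} (hξ : ξ ≠ 0) (Γ : Subgroup G) [Fintype Γ] {d : ℕ} (hd : Fintype.card Γ ≤ d)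
    (w : RPl k F) (h : G) :
    Zc Γ (van k ξ) d (evP (fixV ρ ξ Γ d) (fixV_ne_zero ρ hξ Γ hd)
      (w.comap (((ρ h : F ≃ₐ[k] F) : F →ₐ[k] F).comp (IntermediateField.val _)))) =
      ∑ γ : Γ, Finsupp.single (evP ξ hξ (w.comap ((ρ (h * γ) : F ≃ₐ[k] F) : F →ₐ[k] F))) 1 := by
  classical
  have : Infinite k := IsAlgClosed.instInfinite
  choose b hb hs hv he using fun γ : Γ => exists_evP ξ hξ (w.comap ((ρ (h * γ) : F ≃ₐ[k] F) : F →ₐ[k] F))
  have h1 : Vl w (nm k d (fun (γ : Γ) i => (ρ (h * γ)) (ξ i))) (nm k d b) := vl_nm hd fun γ => (hv γ).comap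
  have h2 : nm k d (fun (γ : Γ) i => (ρ (h * γ)) (ξ i)) =
      fun l => (((ρ h : F ≃ₐ[k] F) : F →ₐ[k] F).comp (IntermediateField.val _)) (fixV ρ ξ Γ d l) := by
    funext l
    have h3 := nm_map (k := k) (d := d) ((ρ h : F ≃ₐ[k] F) : F →+* F) (fun c => (ρ h).commutes c) (tr ρ ξ (fun γ : Γ => (γ : G))) l
    have h4 : (fun j i => ((ρ h : F ≃ₐ[k] F) : F →+* F) (tr ρ ξ (fun γ : Γ => (γ : G)) j i)) =
        fun (γ : Γ) i => (ρ (h * γ)) (ξ i) := by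
      funext j i
      change ρ h (ρ (j : G) (ξ i)) = ρ (h * j) (ξ i)
      rw [map_mul]
      rfl
    rw [h4] at h3
    exact h3
  rw [h2] at h1
  have h5 := Vl.comap' (fixV_ne_zero ρ hξ Γ hd) h1
  rw [evP_eq (fixV_ne_zero ρ hξ Γ hd) h5 h5.1 h5.sat, Zc_eq hd (van k ξ) h5.1 h5.sat
    (z := b) ⟨hb, 1, one_ne_zero, fun l => (one_mul _).symm⟩]
  refine Finset.sum_congr rfl fun γ _ => ?_
  rw [he γ]
  unfold cy
  rw [dif_pos ⟨hb γ, hs γ⟩]

end Pool.Agent.Helper15.GT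

end CX
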