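import Mathlib
import Pool.Agent.Helper9.NS
import Pool.Agent.Helper40.CX.H15GT.Defs
import Pool.Agent.Helper40.CX.Good2

namespace CX

/-!
# Block GT-RING: the identity in the group ring

If the left ideal generated by the `e_Γ_i` is the whole group ring then `1 = ∑_i c_i e_Γ_i` with `c_i` in the group ring
(`Ideal.mem_span_range_iff_exists_fun` or `Submodule.mem_span_range_iff_exists_fun`). Let `D > 0` be a common denominator of all
coefficients `c_i (h)` and `c i h = D c_i (h)`, an integer. Compare the coefficients of `g ∈ G` on both sides of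
`D = ∑_i ∑_h c i h • h e_Γ_i = ∑_i ∑_h c i h • ∑_{γ ∈ Γ_i} h γ` (`MonoidAlgebra.single_mul_single`). It may be convenient to map both sides of
the wanted identity by the injective map `(G →₀ ℤ) → (G →₀ ℚ)` (`Finsupp.mapRange` with `Int.cast`), or to evaluate at `g`.
-/

set_option linter.unusedSectionVars false

namespace Pool.Agent.Helper15.GT

open VC VF Function Pool.Agent.Helper21.TO

universe u

/-- The sum of the elements of the subgroup `Γ`, in the group ring. -/
noncomputable def eG {G : Type*} [Group G] (Γ : Subgroup G) : MonoidAlgebra ℚ G :=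
  ∑ᶠ γ : Γ, MonoidAlgebra.of ℚ G (γ : G)

private theorem exists_int11 (D : ℕ) (q : ℚ) (h : q.den ∣ D) : ∃ z : ℤ, (z : ℚ) = D * q := by
  obtain ⟨k, rfl⟩ := h
  refine ⟨q.num * k, ?_⟩
  push_cast
  rw [← Rat.mul_den_eq_num q]
  ring

private theorem coeff_mul_eG11 {G : Type*} [Group G] [Fintype G] [DecidableEq G] (Γ : Subgroup G) [Fintype Γ]
    (a : MonoidAlgebra ℚ G) (g : G) :
    (a * eG Γ).coeff g = ∑ h, ∑ j : Γ, a.coeff h * (if h * (j : G) = g then 1 else 0) := by
  have h1 : eG Γ = ∑ j : Γ, MonoidAlgebra.single (j : G) (1 : ℚ) := by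
    unfold eG
    rw [finsum_eq_sum_of_fintype]
    rfl
  have h2 : a = ∑ h, MonoidAlgebra.single h (a.coeff h) := by
    refine MonoidAlgebra.ext ?_
    rw [MonoidAlgebra.coeff_sum]
    refine Finsupp.ext fun x => ?_
    rw [Finsupp.finset_sum_apply, Finset.sum_eq_single x]
    · rw [MonoidAlgebra.coeff_single, Finsupp.single_eq_same]
    · intro y _ hy
      rw [MonoidAlgebra.coeff_single, Finsupp.single_eq_of_ne hy.symm]
    · intro hx
      exact absurd (Finset.mem_univ _) hx
  have h3 : a * eG Γ = ∑ h, ∑ j : Γ, MonoidAlgebra.single (h * (j : G)) (a.coeff h) := by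
    conv_lhs => rw [h2, h1]
    rw [Finset.sum_mul_sum]
    refine Finset.sum_congr rfl fun h _ => Finset.sum_congr rfl fun j _ => ?_
    rw [MonoidAlgebra.single_mul_single, mul_one]
  rw [h3, MonoidAlgebra.coeff_sum, Finsupp.finset_sum_apply]
  refine Finset.sum_congr rfl fun h _ => ?_
  rw [MonoidAlgebra.coeff_sum, Finsupp.finset_sum_apply]
  refine Finset.sum_congr rfl fun j _ => ?_
  rw [MonoidAlgebra.coeff_single, Finsupp.single_apply]
  split_ifs
  · rw [mul_one]
  · rw [mul_zero]

theorem exists_coeff {G : Type*} [Group G] [Fintype G] {m : ℕ} (Γ : Fin m → Subgroup G)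
    [∀ i, Fintype (Γ i)] (h : Ideal.span (Set.range fun i => eG (Γ i)) = ⊤) :
    ∃ (D : ℕ) (c : Fin m → G → ℤ), 0 < D ∧
      ∑ i, ∑ h, c i h • ∑ j : Γ i, Finsupp.single (h * (j : G)) (1 : ℤ) = Finsupp.single (1 : G) (D : ℤ) := by
  classical
  have h1 : (1 : MonoidAlgebra ℚ G) ∈ Ideal.span (Set.range fun i => eG (Γ i)) := by
    rw [h]
    exact Submodule.mem_top
  obtain ⟨a, ha⟩ := (Submodule.mem_span_range_iff_exists_fun _).1 h1
  have hD : ∀ i (x : G), ((a i).coeff x).den ∣ ∏ i, ∏ x, ((a i).coeff x).den := fun i x =>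
    (Finset.dvd_prod_of_mem (fun x => ((a i).coeff x).den) (Finset.mem_univ x)).trans
      (Finset.dvd_prod_of_mem (fun i => ∏ x, ((a i).coeff x).den) (Finset.mem_univ i))
  choose c hc using fun i x => exists_int11 _ _ (hD i x)
  refine ⟨∏ i, ∏ x, ((a i).coeff x).den, c, ?_, ?_⟩
  · exact Finset.prod_pos fun i _ => Finset.prod_pos fun x _ => Rat.den_pos _
  · refine Finsupp.ext fun g => ?_
    have h2 : ∑ i, ∑ x, ∑ j : Γ i, (a i).coeff x * (if x * (j : G) = g then (1 : ℚ) else 0) =
        if (1 : G) = g then 1 else 0 := by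
      have h3 := congrArg (fun z : MonoidAlgebra ℚ G => z.coeff g) ha
      simp only [smul_eq_mul, MonoidAlgebra.coeff_sum, Finsupp.finset_sum_apply, coeff_mul_eG11,
        MonoidAlgebra.one_def, MonoidAlgebra.coeff_single, Finsupp.single_apply] at h3
      exact h3
    apply Int.cast_injective (α := ℚ)
    have h4 : ∀ i, (∑ x, c i x • ∑ j : Γ i, Finsupp.single (x * (j : G)) (1 : ℤ)) g =
        ∑ x, ∑ j : Γ i, c i x * (if x * (j : G) = g then 1 else 0) := by
      intro i
      rw [Finsupp.finset_sum_apply]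
      refine Finset.sum_congr rfl fun x _ => ?_
      rw [Finsupp.smul_apply, Finsupp.finset_sum_apply, smul_eq_mul, Finset.mul_sum]
      refine Finset.sum_congr rfl fun j _ => ?_
      rw [Finsupp.single_apply]
    rw [Finsupp.finset_sum_apply, Finset.sum_congr rfl fun i _ => h4 i, Finsupp.single_apply]
    have h5 : ((∏ i, ∏ x, ((a i).coeff x).den : ℕ) : ℚ) * ∑ i, ∑ x, ∑ j : Γ i, (a i).coeff x *
        (if x * (j : G) = g then (1 : ℚ) else 0) =
        ((∏ i, ∏ x, ((a i).coeff x).den : ℕ) : ℚ) * if (1 : G) = g then 1 else 0 := by rw [h2]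
    rw [Int.cast_sum]
    have h6 : ((if (1 : G) = g then ((∏ i, ∏ x, ((a i).coeff x).den : ℕ) : ℤ) else 0 : ℤ) : ℚ) =
        ((∏ i, ∏ x, ((a i).coeff x).den : ℕ) : ℚ) * if (1 : G) = g then 1 else 0 := by
      split_ifs
      · rw [mul_one, Int.cast_natCast]
      · rw [mul_zero, Int.cast_zero]
    rw [h6, ← h5, Finset.mul_sum]
    refine Finset.sum_congr rfl fun i _ => ?_
    rw [Int.cast_sum, Finset.mul_sum]
    refine Finset.sum_congr rfl fun x _ => ?_
    rw [Int.cast_sum, Finset.mul_sum]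
    refine Finset.sum_congr rfl fun j _ => ?_
    rw [Int.cast_mul, hc, mul_assoc]
    split_ifs
    · rw [Int.cast_one]
    · rw [Int.cast_zero]

end Pool.Agent.Helper15.GT

end CX
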